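import Mathlib

set_option autoImplicit false

open MeasureTheory Set Metric Filter Topology

namespace Pool.Agent.Results.MP_36132b_an.NagelConverse

/-- Cn n is complex n-space with its Hermitian norm. -/
abbrev Cn (n : ℕ) : Type := EuclideanSpace ℂ (Fin n)

/-- membership in the ball algebra A(B). -/
def InBallAlgebra {n : ℕ} (g : Cn n → ℂ) : Prop :=
  ContinuousOn g (closedBall 0 1) ∧ DifferentiableOn ℂ g (ball 0 1)

/-- the maximum modulus ‖f‖_K. -/
noncomputable def supNorm {n : ℕ} (K : Set (Cn n)) (f : Cn n → ℂ) : ℝ :=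
  sSup ((fun w => ‖f w‖) '' K)

/-- peak-interpolation sets for the ball algebra. -/
def IsPISet {n : ℕ} (K : Set (Cn n)) : Prop :=
  ∀ f : Cn n → ℂ, ContinuousOn f K → (∃ z ∈ K, f z ≠ 0) →
    ∃ g : Cn n → ℂ, InBallAlgebra g ∧ (∀ z ∈ K, g z = f z) ∧
      ∀ z ∈ closedBall (0 : Cn n) 1 \ K, ‖g z‖ < supNorm K f

/-- The point (w₀, w₁, 0, …, 0). -/
noncomputable def pt (n : ℕ) (w₀ w₁ : ℂ) : Cn n :=
  WithLp.toLp 2 (fun i => if i.val = 0 then w₀ else if i.val = 1 then w₁ else 0)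

lemma pt_apply (n : ℕ) (w₀ w₁ : ℂ) (i : Fin n) :
    pt n w₀ w₁ i = if i.val = 0 then w₀ else if i.val = 1 then w₁ else 0 := rfl

lemma norm_sq_pt {n : ℕ} (hn : 2 ≤ n) (w₀ w₁ : ℂ) : ‖pt n w₀ w₁‖ ^ 2 = ‖w₀‖ ^ 2 + ‖w₁‖ ^ 2 := by
  rw [EuclideanSpace.norm_sq_eq]
  obtain ⟨m, rfl⟩ : ∃ m, n = m + 2 := ⟨n - 2, by omega⟩
  rw [Fin.sum_univ_succ, Fin.sum_univ_succ]
  simp [pt_apply]

lemma continuous_pt (n : ℕ) : Continuous (fun w : ℂ × ℂ => pt n w.1 w.2) := by
  unfold pt
  apply (PiLp.continuous_toLp 2 _).comp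
  apply continuous_pi
  intro i
  by_cases h0 : i.val = 0
  · simp [h0]; fun_prop
  · by_cases h1 : i.val = 1
    · simp [h1]; fun_prop
    · simp [h0, h1]; fun_prop

lemma differentiable_pt_left (n : ℕ) (w₁ : ℂ) : Differentiable ℂ (fun w : ℂ => pt n w w₁) := by
  rw [differentiable_euclidean]
  intro i
  by_cases h0 : i.val = 0
  · simp [pt_apply, h0]
  · by_cases h1 : i.val = 1
    · simp [pt_apply, h1]
    · simp [pt_apply, h0, h1]

lemma differentiable_pt_right (n : ℕ) (w₀ : ℂ) : Differentiable ℂ (fun w : ℂ => pt n w₀ w) := by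
  rw [differentiable_euclidean]
  intro i
  by_cases h0 : i.val = 0
  · simp [pt_apply, h0]
  · by_cases h1 : i.val = 1
    · simp [pt_apply, h1]
    · simp [pt_apply, h0, h1]

/-- radius of the torus -/
noncomputable def ρ : ℝ := Real.sqrt (1 / 2)

lemma ρ_pos : 0 < ρ := Real.sqrt_pos.2 (by norm_num)
lemma ρ_sq : ρ ^ 2 = 1 / 2 := Real.sq_sqrt (by norm_num)

/-- mean value property with a power. -/
lemma mean_pow {f : ℂ → ℂ} {r : ℝ} (hr : 0 < r) (hc : ContinuousOn f (closedBall 0 r))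
    (hd : DifferentiableOn ℂ f (ball 0 r)) (m : ℕ) :
    ∫ t in (0 : ℝ)..2 * Real.pi, f (circleMap 0 r t) * (circleMap 0 r t) ^ m
      = 2 * Real.pi * (f 0 * 0 ^ m) := by
  have h := circleAverage_of_differentiable_on_off_countable (f := fun w : ℂ => f w * w ^ m)
    (c := 0) (R := r) (s := ∅) countable_empty
    (by rw [abs_of_pos hr]; exact hc.mul (by fun_prop))
    (by
      intro z hz
      rw [abs_of_pos hr, sdiff_empty] at hz
      exact ((hd z hz).differentiableAt (isOpen_ball.mem_nhds hz)).mul (by fun_prop))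
  rw [Real.circleAverage_def] at h
  have hpi : (2 * (Real.pi : ℂ)) ≠ 0 := by
    simp [Real.pi_ne_zero]
  have h2 : (2 * (Real.pi : ℂ)) * ((2 * Real.pi : ℝ)⁻¹ •
      ∫ t in (0 : ℝ)..2 * Real.pi, f (circleMap 0 r t) * (circleMap 0 r t) ^ m)
      = 2 * Real.pi * (f 0 * 0 ^ m) := by rw [h]
  rw [← h2, Complex.real_smul]
  push_cast
  field_simp

/-- the point of the torus with arguments x.1, x.2. -/
noncomputable def tp (n : ℕ) (x : ℝ × ℝ) : Cn n := pt n (circleMap 0 ρ x.1) (circleMap 0 ρ x.2)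

lemma norm_tp {n : ℕ} (hn : 2 ≤ n) (x : ℝ × ℝ) : ‖tp n x‖ = 1 := by
  have h : ‖tp n x‖ ^ 2 = 1 := by
    rw [tp, norm_sq_pt hn]
    simp [circleMap, ρ_sq]
    norm_num
  have h0 := norm_nonneg (tp n x)
  nlinarith

lemma continuous_tp (n : ℕ) : Continuous (tp n) := by
  have : tp n = (fun w : ℂ × ℂ => pt n w.1 w.2) ∘
      (fun x : ℝ × ℝ => (circleMap 0 ρ x.1, circleMap 0 ρ x.2)) := rfl
  rw [this]
  exact (continuous_pt n).comp (by fun_prop)

/-- characters of the plane -/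
noncomputable def ch (a b : ℤ) (x : ℝ × ℝ) : ℂ :=
  Complex.exp (((a : ℝ) * x.1 + (b : ℝ) * x.2 : ℝ) * Complex.I)

lemma continuous_ch (a b : ℤ) : Continuous (ch a b) := by
  unfold ch; fun_prop

lemma ch_mul (a b c d : ℤ) (x : ℝ × ℝ) : ch a b x * ch c d x = ch (a + c) (b + d) x := by
  unfold ch
  rw [← Complex.exp_add]
  congr 1
  push_cast
  ring

lemma ch_zero (x : ℝ × ℝ) : ch 0 0 x = 1 := by simp [ch]

/-- the square -/
def Box : Set (ℝ × ℝ) := Icc 0 (2 * Real.pi) ×ˢ Icc 0 (2 * Real.pi)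

lemma isCompact_Box : IsCompact Box := isCompact_Icc.prod isCompact_Icc

lemma measurableSet_Box : MeasurableSet Box := isCompact_Box.measurableSet

lemma intOn {F : ℝ × ℝ → ℂ} (hF : Continuous F) : IntegrableOn F Box volume :=
  hF.continuousOn.integrableOn_compact isCompact_Box

lemma intOnR {F : ℝ × ℝ → ℝ} (hF : Continuous F) : IntegrableOn F Box volume :=
  hF.continuousOn.integrableOn_compact isCompact_Box

lemma twopi_nonneg : (0 : ℝ) ≤ 2 * Real.pi := by positivity

lemma box_fubini {F : ℝ × ℝ → ℂ} (hF : Continuous F) :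
    ∫ x in Box, F x = ∫ a in (0 : ℝ)..2 * Real.pi, ∫ b in (0 : ℝ)..2 * Real.pi, F (a, b) := by
  rw [Box, Measure.volume_eq_prod, setIntegral_prod _ (by
    rw [← Measure.volume_eq_prod]; exact intOn hF)]
  rw [intervalIntegral.integral_of_le twopi_nonneg, integral_Icc_eq_integral_Ioc]
  congr 1
  ext a
  rw [intervalIntegral.integral_of_le twopi_nonneg, integral_Icc_eq_integral_Ioc]

lemma box_fubini' {F : ℝ × ℝ → ℂ} (hF : Continuous F) :
    ∫ x in Box, F x = ∫ b in (0 : ℝ)..2 * Real.pi, ∫ a in (0 : ℝ)..2 * Real.pi, F (a, b) := by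
  have h := box_fubini (F := fun x => F x.swap) (by fun_prop)
  have h2 : ∫ x in Box, F x.swap = ∫ x in Box, F x := by
    rw [Box, Measure.volume_eq_prod]
    exact setIntegral_prod_swap _ _ _
  rw [← h2, h]
  rfl

/-- w ↦ pt n w w₁ maps the closed disc of radius ρ to the closed ball when |w₁| = ρ. -/
lemma left_maps {n : ℕ} (hn : 2 ≤ n) {w₁ : ℂ} (h1 : ‖w₁‖ = ρ) {w : ℂ} (hw : ‖w‖ ≤ ρ) :
    pt n w w₁ ∈ closedBall (0 : Cn n) 1 := by
  rw [mem_closedBall_zero_iff]
  have h := norm_sq_pt hn w w₁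
  rw [h1, ρ_sq] at h
  have h2 : ‖w‖ ^ 2 ≤ 1 / 2 := by rw [← ρ_sq]; gcongr
  nlinarith [norm_nonneg (pt n w w₁)]

lemma left_maps' {n : ℕ} (hn : 2 ≤ n) {w₁ : ℂ} (h1 : ‖w₁‖ ≤ ρ) {w : ℂ} (hw : ‖w‖ < ρ) :
    pt n w w₁ ∈ ball (0 : Cn n) 1 := by
  rw [mem_ball_zero_iff]
  have h := norm_sq_pt hn w w₁
  have h2 : ‖w‖ ^ 2 < 1 / 2 := by rw [← ρ_sq]; gcongr
  have h3 : ‖w₁‖ ^ 2 ≤ 1 / 2 := by rw [← ρ_sq]; gcongr
  nlinarith [norm_nonneg (pt n w w₁)]

lemma right_maps {n : ℕ} (hn : 2 ≤ n) {w₁ : ℂ} (h1 : ‖w₁‖ ≤ ρ) {w : ℂ} (hw : ‖w‖ ≤ ρ) :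
    pt n w w₁ ∈ closedBall (0 : Cn n) 1 := by
  rw [mem_closedBall_zero_iff]
  have h := norm_sq_pt hn w w₁
  have h2 : ‖w‖ ^ 2 ≤ 1 / 2 := by rw [← ρ_sq]; gcongr
  have h3 : ‖w₁‖ ^ 2 ≤ 1 / 2 := by rw [← ρ_sq]; gcongr
  nlinarith [norm_nonneg (pt n w w₁)]

lemma right_maps' {n : ℕ} (hn : 2 ≤ n) {w₁ : ℂ} (h1 : ‖w₁‖ < ρ) {w : ℂ} (hw : ‖w‖ ≤ ρ) :
    pt n w w₁ ∈ ball (0 : Cn n) 1 := by
  rw [mem_ball_zero_iff]
  have h := norm_sq_pt hn w w₁
  have h2 : ‖w‖ ^ 2 ≤ 1 / 2 := by rw [← ρ_sq]; gcongr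
  have h3 : ‖w₁‖ ^ 2 < 1 / 2 := by rw [← ρ_sq]; gcongr
  nlinarith [norm_nonneg (pt n w w₁)]

lemma norm_circ (t : ℝ) : ‖circleMap 0 ρ t‖ = ρ := by
  simp [circleMap, abs_of_pos ρ_pos]

lemma int_left {n : ℕ} (hn : 2 ≤ n) {g : Cn n → ℂ} (hg : InBallAlgebra g) {w₁ : ℂ}
    (h1 : ‖w₁‖ ≤ ρ) (m : ℕ) :
    ∫ t in (0 : ℝ)..2 * Real.pi, g (pt n (circleMap 0 ρ t) w₁) * (circleMap 0 ρ t) ^ m
      = 2 * Real.pi * (g (pt n 0 w₁) * 0 ^ m) := by
  apply mean_pow (f := fun w => g (pt n w w₁)) ρ_pos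
  · apply hg.1.comp
    · exact (differentiable_pt_left n w₁).continuous.continuousOn
    · intro w hw
      exact right_maps hn h1 (by simpa using hw)
  · apply hg.2.comp
    · exact (differentiable_pt_left n w₁).differentiableOn
    · intro w hw
      exact left_maps' hn h1 (by simpa using hw)

lemma int_right {n : ℕ} (hn : 2 ≤ n) {g : Cn n → ℂ} (hg : InBallAlgebra g) {w₀ : ℂ}
    (h1 : ‖w₀‖ ≤ ρ) (m : ℕ) :
    ∫ t in (0 : ℝ)..2 * Real.pi, g (pt n w₀ (circleMap 0 ρ t)) * (circleMap 0 ρ t) ^ m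
      = 2 * Real.pi * (g (pt n w₀ 0) * 0 ^ m) := by
  apply mean_pow (f := fun w => g (pt n w₀ w)) ρ_pos
  · apply hg.1.comp
    · exact (differentiable_pt_right n w₀).continuous.continuousOn
    · intro w hw
      exact right_maps hn (by simpa using hw) h1
  · apply hg.2.comp
    · exact (differentiable_pt_right n w₀).differentiableOn
    · intro w hw
      exact right_maps' hn (by simpa using hw) h1

lemma continuous_gtp {n : ℕ} (hn : 2 ≤ n) {g : Cn n → ℂ} (hg : InBallAlgebra g) :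
    Continuous (fun x : ℝ × ℝ => g (tp n x)) := by
  rw [← continuousOn_univ]
  apply hg.1.comp (continuous_tp n).continuousOn
  intro x _
  rw [mem_closedBall_zero_iff, norm_tp hn]

lemma ch_split (a b : ℤ) (s t : ℝ) : ch a b (s, t) =
    Complex.exp (((a : ℝ) * s : ℝ) * Complex.I) * Complex.exp (((b : ℝ) * t : ℝ) * Complex.I) := by
  unfold ch
  rw [← Complex.exp_add]
  congr 1
  push_cast
  ring

lemma circ_pow (m : ℕ) (t : ℝ) : (circleMap 0 ρ t) ^ m =
    (ρ : ℂ) ^ m * Complex.exp (((m : ℝ) * t : ℝ) * Complex.I) := by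
  rw [circleMap, zero_add, mul_pow, ← Complex.exp_nat_mul]
  congr 2
  push_cast
  ring

lemma ρpow_ne (m : ℕ) : (ρ : ℂ) ^ m ≠ 0 := by
  apply pow_ne_zero
  exact_mod_cast ρ_pos.ne'

/-- Fourier coefficient of a function in the ball algebra with a positive first index. -/
lemma fc_pos_left {n : ℕ} (hn : 2 ≤ n) {g : Cn n → ℂ} (hg : InBallAlgebra g) {a : ℤ} (b : ℤ)
    (ha : 0 < a) : ∫ x in Box, g (tp n x) * ch a b x = 0 := by
  rw [box_fubini' (F := fun x => g (tp n x) * ch a b x)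
    ((continuous_gtp hn hg).mul (continuous_ch a b))]
  obtain ⟨m, rfl⟩ : ∃ m : ℕ, a = m := ⟨a.toNat, by omega⟩
  have hm : m ≠ 0 := by omega
  rw [show (fun t : ℝ => ∫ s in (0 : ℝ)..2 * Real.pi, g (tp n (s, t)) * ch m b (s, t))
    = fun _ => 0 from ?_]
  · simp
  ext t
  have h := int_left hn hg (w₁ := circleMap 0 ρ t) (norm_circ t).le m
  rw [zero_pow hm, mul_zero, mul_zero] at h
  have h2 : ∀ s : ℝ, g (tp n (s, t)) * ch m b (s, t) =
      (((ρ : ℂ) ^ m)⁻¹ * Complex.exp (((b : ℝ) * t : ℝ) * Complex.I)) *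
        (g (pt n (circleMap 0 ρ s) (circleMap 0 ρ t)) * (circleMap 0 ρ s) ^ m) := by
    intro s
    rw [ch_split, circ_pow, tp]
    simp only [Int.cast_natCast]
    generalize Complex.exp (((m : ℝ) * s : ℝ) * Complex.I) = A
    generalize Complex.exp (((b : ℝ) * t : ℝ) * Complex.I) = B
    have := ρpow_ne m
    field_simp
  simp_rw [h2]
  rw [intervalIntegral.integral_const_mul, h, mul_zero]

lemma fc_pos_right {n : ℕ} (hn : 2 ≤ n) {g : Cn n → ℂ} (hg : InBallAlgebra g) (a : ℤ) {b : ℤ}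
    (hb : 0 < b) : ∫ x in Box, g (tp n x) * ch a b x = 0 := by
  rw [box_fubini (F := fun x => g (tp n x) * ch a b x)
    ((continuous_gtp hn hg).mul (continuous_ch a b))]
  obtain ⟨m, rfl⟩ : ∃ m : ℕ, b = m := ⟨b.toNat, by omega⟩
  have hm : m ≠ 0 := by omega
  rw [show (fun s : ℝ => ∫ t in (0 : ℝ)..2 * Real.pi, g (tp n (s, t)) * ch a m (s, t))
    = fun _ => 0 from ?_]
  · simp
  ext s
  have h := int_right hn hg (w₀ := circleMap 0 ρ s) (norm_circ s).le m
  rw [zero_pow hm, mul_zero, mul_zero] at h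
  have h2 : ∀ t : ℝ, g (tp n (s, t)) * ch a m (s, t) =
      (((ρ : ℂ) ^ m)⁻¹ * Complex.exp (((a : ℝ) * s : ℝ) * Complex.I)) *
        (g (pt n (circleMap 0 ρ s) (circleMap 0 ρ t)) * (circleMap 0 ρ t) ^ m) := by
    intro t
    rw [ch_split, circ_pow, tp]
    simp only [Int.cast_natCast]
    generalize Complex.exp (((m : ℝ) * t : ℝ) * Complex.I) = A
    generalize Complex.exp (((a : ℝ) * s : ℝ) * Complex.I) = B
    have := ρpow_ne m
    field_simp
  simp_rw [h2]
  rw [intervalIntegral.integral_const_mul, h, mul_zero]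

lemma pt_zero (n : ℕ) : pt n 0 0 = 0 := by
  ext i
  simp [pt_apply]

lemma fc_zero {n : ℕ} (hn : 2 ≤ n) {g : Cn n → ℂ} (hg : InBallAlgebra g) :
    ∫ x in Box, g (tp n x) = (2 * Real.pi) ^ 2 * g 0 := by
  rw [box_fubini (continuous_gtp hn hg)]
  have h : ∀ s : ℝ, ∫ t in (0 : ℝ)..2 * Real.pi, g (tp n (s, t)) =
      2 * Real.pi * g (pt n (circleMap 0 ρ s) 0) := by
    intro s
    have h := int_right hn hg (w₀ := circleMap 0 ρ s) (norm_circ s).le 0
    simpa [tp] using h
  simp_rw [h]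
  rw [intervalIntegral.integral_const_mul]
  have h := int_left hn hg (w₁ := 0) (by simpa using ρ_pos.le) 0
  simp only [pow_zero, mul_one] at h
  rw [h, pt_zero]
  ring

/-- number of terms of the j-th Dirichlet sum -/
def N (j : ℕ) : ℕ := 16 * 4 ^ j

lemma N_pos (j : ℕ) : 0 < N j := by unfold N; positivity

/-- bound for the frequencies used before stage j -/
def L : ℕ → ℕ
  | 0 => 0
  | j + 1 => L j + N j * (2 * (2 * L j + 1))

/-- the j-th scale -/
def R (j : ℕ) : ℕ := 2 * L j + 1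

/-- slope data -/
def s₁ (j : ℕ) : ℕ := if Even j then 1 else 2
/-- slope data -/
def s₂ (j : ℕ) : ℕ := if Even j then 2 else 1

/-- the j-th frequency is (fp j, - fq j) -/
def fp (j : ℕ) : ℤ := (R j * s₁ j : ℕ)
/-- the j-th frequency is (fp j, - fq j) -/
def fq (j : ℕ) : ℤ := (R j * s₂ j : ℕ)

lemma L_succ (j : ℕ) : L (j + 1) = L j + N j * (2 * R j) := rfl

lemma fp_gt (j : ℕ) : (R j : ℤ) ≤ fp j := by
  unfold fp s₁; split_ifs <;> push_cast <;> omega
lemma fq_gt (j : ℕ) : (R j : ℤ) ≤ fq j := by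
  unfold fq s₂; split_ifs <;> push_cast <;> omega
lemma fp_le (j : ℕ) : fp j ≤ 2 * R j := by
  unfold fp s₁; split_ifs <;> push_cast <;> omega
lemma fq_le (j : ℕ) : fq j ≤ 2 * R j := by
  unfold fq s₂; split_ifs <;> push_cast <;> omega
lemma R_eq (j : ℕ) : (R j : ℤ) = 2 * L j + 1 := by unfold R; push_cast; ring
lemma L_succ' (j : ℕ) : (L (j + 1) : ℤ) = L j + N j * (2 * R j) := by rw [L_succ]; push_cast; ring

/-- the phase M_j · x -/
noncomputable def ph (j : ℕ) (x : ℝ × ℝ) : ℝ := (fp j : ℝ) * x.1 - (fq j : ℝ) * x.2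

lemma continuous_ph (j : ℕ) : Continuous (ph j) := by unfold ph; fun_prop

/-- Fejér kernel with N terms -/
noncomputable def kern (m : ℕ) (s : ℝ) : ℝ :=
  (1 / (m : ℝ)) * Complex.normSq (∑ k ∈ Finset.range m, Complex.exp (((k : ℝ) * s : ℝ) * Complex.I))

lemma continuous_kern (m : ℕ) : Continuous (kern m) := by
  unfold kern
  apply continuous_const.mul
  apply Complex.continuous_normSq.comp
  fun_prop

lemma kern_nonneg (m : ℕ) (s : ℝ) : 0 ≤ kern m s := by
  unfold kern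
  exact mul_nonneg (by positivity) (Complex.normSq_nonneg _)

lemma kern_expand (m : ℕ) (s : ℝ) : (kern m s : ℂ) =
    (1 / (m : ℂ)) * ∑ k ∈ Finset.range m, ∑ l ∈ Finset.range m,
      Complex.exp (((((k : ℤ) - (l : ℤ) : ℤ) : ℝ) * s : ℝ) * Complex.I) := by
  unfold kern
  push_cast
  congr 1
  rw [Complex.normSq_eq_conj_mul_self, map_sum, Finset.sum_mul_sum, Finset.sum_comm]
  apply Finset.sum_congr rfl
  intro k _
  apply Finset.sum_congr rfl
  intro l _
  rw [← Complex.exp_conj, ← Complex.exp_add]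
  congr 1
  simp
  ring

/-- the density at stage J -/
noncomputable def P (J : ℕ) (x : ℝ × ℝ) : ℝ := ∏ j ∈ Finset.range J, kern (N j) (ph j x)

lemma P_nonneg (J : ℕ) (x : ℝ × ℝ) : 0 ≤ P J x :=
  Finset.prod_nonneg fun _ _ => kern_nonneg _ _

lemma continuous_P (J : ℕ) : Continuous (P J) := by
  unfold P
  apply continuous_finsetProd
  intro j _
  exact (continuous_kern _).comp (continuous_ph j)

lemma kern_ph (j : ℕ) (x : ℝ × ℝ) : (kern (N j) (ph j x) : ℂ) =
    (1 / (N j : ℂ)) * ∑ k ∈ Finset.range (N j), ∑ l ∈ Finset.range (N j),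
      ch (((k : ℤ) - l) * fp j) (-(((k : ℤ) - l) * fq j)) x := by
  rw [kern_expand]
  congr 1
  apply Finset.sum_congr rfl
  intro k _
  apply Finset.sum_congr rfl
  intro l _
  unfold ch ph
  congr 2
  push_cast
  ring

lemma step_expand (J : ℕ) {F : ℝ × ℝ → ℂ} (hF : Continuous F) (a b : ℤ) :
    ∫ x in Box, F x * P (J + 1) x * ch a b x =
    (1 / (N J : ℂ)) * ∑ k ∈ Finset.range (N J), ∑ l ∈ Finset.range (N J),
      ∫ x in Box, F x * P J x * ch (a + ((k : ℤ) - l) * fp J) (b - ((k : ℤ) - l) * fq J) x := by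
  have hP : Continuous (fun x => (P J x : ℂ)) := Complex.continuous_ofReal.comp (continuous_P J)
  have hterm : ∀ k l : ℕ, Continuous (fun x => F x * P J x *
      ch (a + ((k : ℤ) - l) * fp J) (b - ((k : ℤ) - l) * fq J) x) := fun k l =>
    (hF.mul hP).mul (continuous_ch _ _)
  have h : ∀ x, F x * P (J + 1) x * ch a b x = (1 / (N J : ℂ)) *
      ∑ k ∈ Finset.range (N J), ∑ l ∈ Finset.range (N J),
       F x * P J x * ch (a + ((k : ℤ) - l) * fp J) (b - ((k : ℤ) - l) * fq J) x := by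
    intro x
    have h1 : P (J + 1) x = P J x * kern (N J) (ph J x) := by
      unfold P
      rw [Finset.prod_range_succ]
    rw [h1]
    push_cast
    rw [kern_ph]
    simp only [Finset.mul_sum, Finset.sum_mul]
    apply Finset.sum_congr rfl
    intro k _
    apply Finset.sum_congr rfl
    intro l _
    rw [show ch (a + ((k : ℤ) - l) * fp J) (b - ((k : ℤ) - l) * fq J) x =
      ch (((k : ℤ) - l) * fp J) (-(((k : ℤ) - l) * fq J)) x * ch a b x from by
        rw [ch_mul]; congr 1 <;> ring]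
    ring
  simp_rw [h]
  rw [integral_const_mul]
  congr 1
  rw [integral_finsetSum]
  · apply Finset.sum_congr rfl
    intro k _
    rw [integral_finsetSum]
    intro l _
    exact intOn (hterm k l)
  · intro k _
    apply intOn
    apply continuous_finsetSum
    intro l _
    exact hterm k l

/-- opposite signs, both coordinates larger than m in modulus -/
def Opp (m : ℤ) (a b : ℤ) : Prop := (m < a ∧ b < -m) ∨ (a < -m ∧ m < b)

lemma opp_step {J : ℕ} {a b : ℤ} (h : Opp (L (J + 1)) a b) {k l : ℕ} (hk : k < N J)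
    (hl : l < N J) : Opp (L J) (a + ((k : ℤ) - l) * fp J) (b - ((k : ℤ) - l) * fq J) := by
  have h1 := fp_gt J
  have h2 := fq_gt J
  have h3 := fp_le J
  have h4 := fq_le J
  have h5 := R_eq J
  have h6 := L_succ' J
  have hR : (0 : ℤ) < R J := by rw [h5]; positivity
  have hk' : (k : ℤ) - l ≤ N J - 1 := by omega
  have hl' : -(N J - 1 : ℤ) ≤ (k : ℤ) - l := by omega
  set d : ℤ := (k : ℤ) - l
  have e1 : d * fp J ≤ N J * (2 * R J) := by nlinarith
  have e2 : -(N J * (2 * R J) : ℤ) ≤ d * fp J := by nlinarith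
  have e3 : d * fq J ≤ N J * (2 * R J) := by nlinarith
  have e4 : -(N J * (2 * R J) : ℤ) ≤ d * fq J := by nlinarith
  rcases h with ⟨ha, hb⟩ | ⟨ha, hb⟩
  · left; constructor <;> linarith
  · right; constructor <;> linarith

lemma opp_base {J : ℕ} {d : ℤ} (hd : d ≠ 0) : Opp (L J) (d * fp J) (-(d * fq J)) := by
  have h1 := fp_gt J
  have h2 := fq_gt J
  have h5 := R_eq J
  have hL : (0 : ℤ) ≤ L J := by positivity
  rcases lt_or_gt_of_ne hd with h | h
  · right
    constructor <;> nlinarith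
  · left
    constructor <;> nlinarith

lemma P_zero (x : ℝ × ℝ) : P 0 x = 1 := by simp [P]

lemma main_int {n : ℕ} (hn : 2 ≤ n) {g : Cn n → ℂ} (hg : InBallAlgebra g) (J : ℕ) :
    (∫ x in Box, g (tp n x) * P J x = (2 * Real.pi) ^ 2 * g 0) ∧
    ∀ a b : ℤ, Opp (L J) a b → ∫ x in Box, g (tp n x) * P J x * ch a b x = 0 := by
  induction J with
  | zero =>
    constructor
    · simp only [P_zero, Complex.ofReal_one, mul_one]
      exact fc_zero hn hg
    · intro a b hab
      simp only [P_zero, Complex.ofReal_one, mul_one]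
      rcases hab with ⟨ha, hb⟩ | ⟨ha, hb⟩
      · exact fc_pos_left hn hg b (by simpa [L] using ha)
      · exact fc_pos_right hn hg a (by simpa [L] using hb)
  | succ J ih =>
    constructor
    · have h := step_expand J (continuous_gtp hn hg) 0 0
      simp only [ch_zero, mul_one, zero_add, zero_sub] at h
      rw [h]
      have h2 : ∀ k ∈ Finset.range (N J), ∀ l ∈ Finset.range (N J),
          ∫ x in Box, g (tp n x) * P J x * ch (((k : ℤ) - l) * fp J) (-(((k : ℤ) - l) * fq J)) x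
          = if k = l then (2 * Real.pi) ^ 2 * g 0 else 0 := by
        intro k _ l _
        split_ifs with hkl
        · subst hkl
          simp only [sub_self, zero_mul, neg_zero, ch_zero, mul_one]
          exact ih.1
        · exact ih.2 _ _ (opp_base (by omega))
      rw [Finset.sum_congr rfl fun k hk => Finset.sum_congr rfl fun l hl => h2 k hk l hl]
      simp only [Finset.sum_ite_eq]
      rw [Finset.sum_congr rfl (g := fun _ => (2 * (Real.pi : ℂ)) ^ 2 * g 0)
        (fun k hk => by rw [if_pos hk])]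
      rw [Finset.sum_const, Finset.card_range, nsmul_eq_mul]
      have : (N J : ℂ) ≠ 0 := by exact_mod_cast (N_pos J).ne'
      field_simp
    · intro a b hab
      rw [step_expand J (continuous_gtp hn hg)]
      rw [Finset.sum_eq_zero, mul_zero]
      intro k hk
      apply Finset.sum_eq_zero
      intro l hl
      exact ih.2 _ _ (opp_step hab (Finset.mem_range.1 hk) (Finset.mem_range.1 hl))

lemma one_mem {n : ℕ} : InBallAlgebra (fun _ : Cn n => (1 : ℂ)) :=
  ⟨continuousOn_const, differentiableOn_const _⟩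

lemma int_P (J : ℕ) : ∫ x in Box, (P J x : ℂ) = (2 * Real.pi) ^ 2 := by
  have h := (main_int (le_refl 2) one_mem J).1
  simpa using h

lemma int_P_opp (J : ℕ) {a b : ℤ} (h : Opp (L J) a b) : ∫ x in Box, (P J x : ℂ) * ch a b x = 0 := by
  have h := (main_int (le_refl 2) one_mem J).2 a b h
  simpa using h

lemma L_mono_aux (j : ℕ) : L j ≤ L (j + 1) := by rw [L_succ]; omega

lemma L_mono : Monotone L := monotone_nat_of_le_succ L_mono_aux

lemma L_ge {j J : ℕ} (h : j < J) : 2 * R j ≤ L J := by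
  have h1 : 2 * R j ≤ L (j + 1) := by
    rw [L_succ]
    have := N_pos j
    nlinarith
  exact h1.trans (L_mono h)

/-- the Fourier coefficient of P J at the j-th frequency -/
lemma int_P_freq {j J : ℕ} (h : j < J) :
    ∫ x in Box, (P J x : ℂ) * ch (-(fp j)) (fq j) x =
      (2 * Real.pi) ^ 2 * (((N j : ℂ) - 1) / N j) := by
  induction J with
  | zero => omega
  | succ J ih =>
    have he := step_expand J (F := fun _ => 1) continuous_const (-(fp j)) (fq j)
    simp only [one_mul] at he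
    rw [he]
    rcases Nat.lt_succ_iff_lt_or_eq.1 h with hlt | heq
    · have h2 : ∀ k ∈ Finset.range (N J), ∀ l ∈ Finset.range (N J),
          ∫ x in Box, (P J x : ℂ) * ch (-(fp j) + ((k : ℤ) - l) * fp J)
            (fq j - ((k : ℤ) - l) * fq J) x
          = if k = l then (2 * Real.pi) ^ 2 * (((N j : ℂ) - 1) / N j) else 0 := by
        intro k _ l _
        split_ifs with hkl
        · subst hkl
          simp only [sub_self, zero_mul, add_zero, sub_zero]
          exact ih hlt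
        · apply int_P_opp
          have hge : (2 * R j : ℤ) ≤ L J := by exact_mod_cast L_ge hlt
          have h1 := fp_gt J
          have h2 := fq_gt J
          have h3 := fp_le j
          have h4 := fq_le j
          have h1' := fp_gt j
          have h2' := fq_gt j
          have h5 := R_eq J
          have h6 := R_eq j
          have hL : (0 : ℤ) ≤ L J := by positivity
          have hL' : (0 : ℤ) ≤ L j := by positivity
          set d : ℤ := (k : ℤ) - l with hd
          have hd0 : d ≠ 0 := by omega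
          rcases lt_or_gt_of_ne hd0 with h | h
          · right
            constructor <;> nlinarith
          · left
            constructor <;> nlinarith
      rw [Finset.sum_congr rfl fun k hk => Finset.sum_congr rfl fun l hl => h2 k hk l hl]
      simp only [Finset.sum_ite_eq]
      rw [Finset.sum_congr rfl (g := fun _ => (2 * (Real.pi : ℂ)) ^ 2 * (((N j : ℂ) - 1) / N j))
        (fun k hk => by rw [if_pos hk])]
      rw [Finset.sum_const, Finset.card_range, nsmul_eq_mul]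
      have : (N J : ℂ) ≠ 0 := by exact_mod_cast (N_pos J).ne'
      have : (N j : ℂ) ≠ 0 := by exact_mod_cast (N_pos j).ne'
      field_simp
    · subst heq
      have h2 : ∀ k ∈ Finset.range (N j), ∀ l ∈ Finset.range (N j),
          ∫ x in Box, (P j x : ℂ) * ch (-(fp j) + ((k : ℤ) - l) * fp j)
            (fq j - ((k : ℤ) - l) * fq j) x
          = if k = l + 1 then ((2 * Real.pi) ^ 2 : ℂ) else 0 := by
        intro k _ l _
        split_ifs with hkl
        · subst hkl
          push_cast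
          simp only [add_sub_cancel_left, one_mul, neg_add_cancel, sub_self, ch_zero, mul_one]
          exact int_P j
        · rw [show -(fp j) + ((k : ℤ) - l) * fp j = ((k : ℤ) - l - 1) * fp j by ring,
            show fq j - ((k : ℤ) - l) * fq j = -(((k : ℤ) - l - 1) * fq j) by ring]
          exact int_P_opp j (opp_base (by omega))
      rw [Finset.sum_congr rfl fun k hk => Finset.sum_congr rfl fun l hl => h2 k hk l hl]
      rw [Finset.sum_comm]
      simp only [Finset.sum_ite_eq']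
      have hcount : ∀ m : ℕ, 0 < m → ∀ c : ℂ, ∑ l ∈ Finset.range m,
          (if l + 1 ∈ Finset.range m then c else 0) = ((m : ℂ) - 1) * c := by
        intro m hm c
        obtain ⟨m, rfl⟩ : ∃ m', m = m' + 1 := ⟨m - 1, by omega⟩
        rw [Finset.sum_range_succ, if_neg (by simp), add_zero]
        rw [Finset.sum_congr rfl (g := fun _ => c)
          (fun l hl => by rw [if_pos (by simpa using hl)])]
        simp
      rw [hcount _ (N_pos j)]
      have : (N j : ℂ) ≠ 0 := by exact_mod_cast (N_pos j).ne'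
      field_simp

lemma ch_re (j : ℕ) (x : ℝ × ℝ) : (ch (-(fp j)) (fq j) x).re = Real.cos (ph j x) := by
  unfold ch ph
  rw [Complex.exp_ofReal_mul_I_re, ← Real.cos_neg]
  congr 1
  push_cast
  ring

lemma intR_P (J : ℕ) : ∫ x in Box, P J x = (2 * Real.pi) ^ 2 := by
  have h := int_P J
  rw [integral_complex_ofReal] at h
  exact_mod_cast h

lemma intR_cos {j J : ℕ} (h : j < J) :
    ∫ x in Box, P J x * Real.cos (ph j x) = (2 * Real.pi) ^ 2 * (((N j : ℝ) - 1) / N j) := by
  have h1 := int_P_freq h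
  have hc : Continuous (fun x : ℝ × ℝ => (P J x : ℂ) * ch (-(fp j)) (fq j) x) :=
    (Complex.continuous_ofReal.comp (continuous_P J)).mul (continuous_ch _ _)
  have h2 : ∫ x in Box, ((P J x : ℂ) * ch (-(fp j)) (fq j) x).re =
      (∫ x in Box, (P J x : ℂ) * ch (-(fp j)) (fq j) x).re := by
    exact integral_re (intOn hc)
  rw [h1] at h2
  have h3 : ∀ x : ℝ × ℝ, ((P J x : ℂ) * ch (-(fp j)) (fq j) x).re = P J x * Real.cos (ph j x) := by
    intro x
    rw [Complex.re_ofReal_mul, ch_re]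
  simp_rw [h3] at h2
  rw [h2]
  have : ((2 * (Real.pi : ℂ)) ^ 2 * (((N j : ℂ) - 1) / N j)) =
    (((2 * Real.pi) ^ 2 * (((N j : ℝ) - 1) / N j) : ℝ) : ℂ) := by push_cast; ring
  rw [this, Complex.ofReal_re]

/-- width of the j-th strips -/
noncomputable def η (j : ℕ) : ℝ := (1 / 2) ^ j

lemma η_pos (j : ℕ) : 0 < η j := by unfold η; positivity

lemma intR_defect {j J : ℕ} (h : j < J) :
    ∫ x in Box, ((1 - Real.cos (ph j x)) / η j) * P J x = (2 * Real.pi) ^ 2 * (1 / 16 * (1 / 2) ^ j) := by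
  have h1 : ∀ x : ℝ × ℝ, ((1 - Real.cos (ph j x)) / η j) * P J x =
      (η j)⁻¹ * (P J x - P J x * Real.cos (ph j x)) := by
    intro x
    have := (η_pos j).ne'
    field_simp
  simp_rw [h1]
  rw [integral_const_mul, integral_sub (intOnR (continuous_P J)) (intOnR (by
    exact (continuous_P J).mul (Real.continuous_cos.comp (continuous_ph j)))),
    intR_P, intR_cos h]
  have hN : (N j : ℝ) = 16 * 4 ^ j := by unfold N; push_cast; ring
  have h4 : (4 : ℝ) ^ j = 2 ^ j * 2 ^ j := by rw [← mul_pow]; norm_num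
  rw [hN, h4, η, one_div_pow]
  have h2 : (2 : ℝ) ^ j ≠ 0 := by positivity
  field_simp
  ring

lemma sum_half (J : ℕ) : ∑ j ∈ Finset.range J, (1 / 2 : ℝ) ^ j ≤ 2 := by
  have := Summable.sum_le_tsum (f := fun j : ℕ => (1 / 2 : ℝ) ^ j) (Finset.range J)
    (fun j _ => by positivity) summable_geometric_two
  rwa [tsum_geometric_two] at this

/-- the test integral inequality -/
lemma key_ineq {n : ℕ} (hn : 2 ≤ n) {g : Cn n → ℂ} (hg : InBallAlgebra g) (J : ℕ)
    (hb : ∀ x : ℝ × ℝ, ‖g (tp n x) - 1‖ ≤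
      1 / 4 + ∑ j ∈ Finset.range J, 2 * ((1 - Real.cos (ph j x)) / η j)) :
    ‖g 0 - 1‖ ≤ 1 / 2 := by
  have hcg := continuous_gtp hn hg
  have hcP : Continuous (fun x => (P J x : ℂ)) := Complex.continuous_ofReal.comp (continuous_P J)
  have hpi : (0 : ℝ) < (2 * Real.pi) ^ 2 := by positivity
  have h1 : ∫ x in Box, (g (tp n x) - 1) * P J x = (2 * Real.pi) ^ 2 * (g 0 - 1) := by
    have : ∀ x : ℝ × ℝ, (g (tp n x) - 1) * P J x = g (tp n x) * P J x - P J x := fun x => by ring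
    simp_rw [this]
    have i1 : IntegrableOn (fun x => g (tp n x) * (P J x : ℂ)) Box volume := intOn (hcg.mul hcP)
    rw [integral_sub i1 (intOn hcP), (main_int hn hg J).1, int_P]
    ring
  have h2 : (2 * Real.pi) ^ 2 * ‖g 0 - 1‖ ≤ ∫ x in Box, ‖(g (tp n x) - 1) * P J x‖ := by
    have h3 := norm_integral_le_integral_norm (μ := volume.restrict Box)
      (fun x : ℝ × ℝ => (g (tp n x) - 1) * P J x)
    rw [h1, norm_mul] at h3
    have h4 : ‖(2 * (Real.pi : ℂ)) ^ 2‖ = (2 * Real.pi) ^ 2 := by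
      rw [norm_pow, norm_mul]
      simp [abs_of_pos Real.pi_pos]
    rwa [h4] at h3
  have hcd : ∀ j, Continuous (fun x : ℝ × ℝ => ((1 - Real.cos (ph j x)) / η j) * P J x) := by
    intro j
    have := continuous_ph j
    have := continuous_P J
    fun_prop
  have h3 : ∫ x in Box, ‖(g (tp n x) - 1) * P J x‖ ≤
      ∫ x in Box, (1 / 4 * P J x + ∑ j ∈ Finset.range J,
        2 * (((1 - Real.cos (ph j x)) / η j) * P J x)) := by
    apply integral_mono
    · exact intOnR (((hcg.sub continuous_const).mul hcP).norm)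
    · apply intOnR
      apply (continuous_const.mul (continuous_P J)).add
      apply continuous_finsetSum
      intro j _
      exact continuous_const.mul (hcd j)
    · intro x
      simp only
      rw [norm_mul, Complex.norm_real, Real.norm_of_nonneg (P_nonneg J x)]
      have h5 := mul_le_mul_of_nonneg_right (hb x) (P_nonneg J x)
      refine h5.trans (le_of_eq ?_)
      rw [add_mul, Finset.sum_mul]
      congr 1
      apply Finset.sum_congr rfl
      intro j _
      ring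
  have h4 : ∫ x in Box, (1 / 4 * P J x + ∑ j ∈ Finset.range J,
        2 * (((1 - Real.cos (ph j x)) / η j) * P J x)) ≤ (2 * Real.pi) ^ 2 * (1 / 2) := by
    have i1 : IntegrableOn (fun x => 1 / 4 * P J x) Box volume :=
      intOnR (continuous_const.mul (continuous_P J))
    have i2 : ∀ j, IntegrableOn (fun x => 2 * (((1 - Real.cos (ph j x)) / η j) * P J x)) Box volume :=
      fun j => intOnR (continuous_const.mul (hcd j))
    have i3 : IntegrableOn (fun x => ∑ j ∈ Finset.range J,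
        2 * (((1 - Real.cos (ph j x)) / η j) * P J x)) Box volume :=
      intOnR (continuous_finsetSum _ fun j _ => continuous_const.mul (hcd j))
    rw [integral_add i1 i3, integral_const_mul, intR_P, integral_finsetSum _ (fun j _ => i2 j)]
    simp_rw [integral_const_mul]
    rw [Finset.sum_congr rfl (g := fun j => 2 * ((2 * Real.pi) ^ 2 * (1 / 16 * (1 / 2 : ℝ) ^ j)))
      (fun j hj => by rw [intR_defect (Finset.mem_range.1 hj)])]
    rw [← Finset.mul_sum, ← Finset.mul_sum, ← Finset.mul_sum]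
    have := sum_half J
    nlinarith
  have h5 : (2 * Real.pi) ^ 2 * ‖g 0 - 1‖ ≤ (2 * Real.pi) ^ 2 * (1 / 2) := h2.trans (h3.trans h4)
  exact le_of_mul_le_mul_left h5 hpi

/-- the j-th test function -/
noncomputable def U {n : ℕ} (hn : 2 ≤ n) (j : ℕ) (z : Cn n) : ℝ :=
  ((z ⟨0, by omega⟩ / ρ) ^ (R j * s₁ j) * (starRingEnd ℂ (z ⟨1, by omega⟩ / ρ)) ^ (R j * s₂ j)).re

/-- finite stages of the compact set -/
def KJ {n : ℕ} (hn : 2 ≤ n) (J : ℕ) : Set (Cn n) :=
  {z | (∀ i : Fin n, 2 ≤ i.val → z i = 0) ∧ ‖z ⟨0, by omega⟩‖ = ρ ∧ ‖z ⟨1, by omega⟩‖ = ρ ∧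
    ∀ j < J, 1 - η j ≤ U hn j z}

/-- the compact set -/
def K {n : ℕ} (hn : 2 ≤ n) : Set (Cn n) :=
  {z | (∀ i : Fin n, 2 ≤ i.val → z i = 0) ∧ ‖z ⟨0, by omega⟩‖ = ρ ∧ ‖z ⟨1, by omega⟩‖ = ρ ∧
    ∀ j, 1 - η j ≤ U hn j z}

lemma continuous_coord {n : ℕ} (i : Fin n) : Continuous (fun z : Cn n => z i) := by fun_prop

lemma continuous_U {n : ℕ} (hn : 2 ≤ n) (j : ℕ) : Continuous (U hn j) := by
  unfold U
  apply Complex.continuous_re.comp
  fun_prop

lemma isClosed_KJ {n : ℕ} (hn : 2 ≤ n) (J : ℕ) : IsClosed (KJ hn J) := by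
  unfold KJ
  simp only [ofPred_and, ofPred_forall]
  refine IsClosed.inter ?_ (IsClosed.inter ?_ (IsClosed.inter ?_ ?_))
  · refine isClosed_iInter fun i => isClosed_iInter fun _ => ?_
    exact isClosed_eq (continuous_coord i) continuous_const
  · exact isClosed_eq (continuous_coord _).norm continuous_const
  · exact isClosed_eq (continuous_coord _).norm continuous_const
  · refine isClosed_iInter fun j => isClosed_iInter fun _ => ?_
    exact isClosed_le continuous_const (continuous_U hn j)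

lemma isClosed_K {n : ℕ} (hn : 2 ≤ n) : IsClosed (K hn) := by
  unfold K
  simp only [ofPred_and, ofPred_forall]
  refine IsClosed.inter ?_ (IsClosed.inter ?_ (IsClosed.inter ?_ ?_))
  · refine isClosed_iInter fun i => isClosed_iInter fun _ => ?_
    exact isClosed_eq (continuous_coord i) continuous_const
  · exact isClosed_eq (continuous_coord _).norm continuous_const
  · exact isClosed_eq (continuous_coord _).norm continuous_const
  · refine isClosed_iInter fun j => ?_
    exact isClosed_le continuous_const (continuous_U hn j)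

lemma norm_of_base {n : ℕ} (hn : 2 ≤ n) {z : Cn n} (h : ∀ i : Fin n, 2 ≤ i.val → z i = 0)
    (h0 : ‖z ⟨0, by omega⟩‖ = ρ) (h1 : ‖z ⟨1, by omega⟩‖ = ρ) : ‖z‖ = 1 := by
  have hz : z = pt n (z ⟨0, by omega⟩) (z ⟨1, by omega⟩) := by
    ext i
    rw [pt_apply]
    by_cases hi0 : i.val = 0
    · rw [if_pos hi0, show i = ⟨0, by omega⟩ from Fin.ext hi0]
    · rw [if_neg hi0]
      by_cases hi1 : i.val = 1
      · rw [if_pos hi1, show i = ⟨1, by omega⟩ from Fin.ext hi1]
      · rw [if_neg hi1]; exact h i (by omega)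
  have h2 : ‖z‖ ^ 2 = 1 := by
    rw [hz, norm_sq_pt hn, h0, h1, ρ_sq]; norm_num
  nlinarith [norm_nonneg z]

lemma KJ_sphere {n : ℕ} (hn : 2 ≤ n) (J : ℕ) : KJ hn J ⊆ sphere 0 1 := by
  intro z hz
  rw [mem_sphere_zero_iff_norm]
  exact norm_of_base hn hz.1 hz.2.1 hz.2.2.1

lemma K_sphere {n : ℕ} (hn : 2 ≤ n) : K hn ⊆ sphere 0 1 := by
  intro z hz
  rw [mem_sphere_zero_iff_norm]
  exact norm_of_base hn hz.1 hz.2.1 hz.2.2.1

lemma isCompact_K {n : ℕ} (hn : 2 ≤ n) : IsCompact (K hn) :=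
  (isCompact_sphere (0 : Cn n) 1).of_isClosed_subset (isClosed_K hn) (K_sphere hn)

lemma isCompact_KJ {n : ℕ} (hn : 2 ≤ n) (J : ℕ) : IsCompact (KJ hn J) :=
  (isCompact_sphere (0 : Cn n) 1).of_isClosed_subset (isClosed_KJ hn J) (KJ_sphere hn J)

lemma U_tp {n : ℕ} (hn : 2 ≤ n) (j : ℕ) (x : ℝ × ℝ) : U hn j (tp n x) = Real.cos (ph j x) := by
  have hρ : (ρ : ℂ) ≠ 0 := by exact_mod_cast ρ_pos.ne'
  have h0 : (tp n x) ⟨0, by omega⟩ / ρ = Complex.exp (x.1 * Complex.I) := by
    simp [tp, pt_apply, circleMap, hρ]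
  have h1 : (tp n x) ⟨1, by omega⟩ / ρ = Complex.exp (x.2 * Complex.I) := by
    simp [tp, pt_apply, circleMap, hρ]
  unfold U
  rw [h0, h1, ← Complex.exp_conj, ← Complex.exp_nat_mul, ← Complex.exp_nat_mul, ← Complex.exp_add]
  have : ((R j * s₁ j : ℕ) : ℂ) * (x.1 * Complex.I) +
      ((R j * s₂ j : ℕ) : ℂ) * (starRingEnd ℂ) (x.2 * Complex.I) = (ph j x : ℝ) * Complex.I := by
    unfold ph fp fq
    simp
    ring
  rw [this, Complex.exp_ofReal_mul_I_re]

lemma tp_base {n : ℕ} (hn : 2 ≤ n) (x : ℝ × ℝ) :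
    (∀ i : Fin n, 2 ≤ i.val → (tp n x) i = 0) ∧ ‖(tp n x) ⟨0, by omega⟩‖ = ρ ∧
      ‖(tp n x) ⟨1, by omega⟩‖ = ρ := by
  refine ⟨?_, ?_, ?_⟩
  · intro i hi
    rw [tp, pt_apply, if_neg (by omega), if_neg (by omega)]
  · rw [tp, pt_apply, if_pos rfl, norm_circ]
  · rw [tp, pt_apply, if_neg (by simp), if_pos rfl, norm_circ]

lemma tp_zero_mem {n : ℕ} (hn : 2 ≤ n) : tp n (0, 0) ∈ K hn := by
  obtain ⟨h1, h2, h3⟩ := tp_base hn (0, 0)
  refine ⟨h1, h2, h3, ?_⟩
  intro j
  rw [U_tp]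
  have := η_pos j
  simp [ph, this.le]

lemma pow_mem {n : ℕ} {g : Cn n → ℂ} (hg : InBallAlgebra g) (m : ℕ) :
    InBallAlgebra (fun z => g z ^ m) := ⟨hg.1.pow m, hg.2.pow m⟩

theorem not_PI {n : ℕ} (hn : 2 ≤ n) : ¬ IsPISet (K hn) := by
  intro h
  obtain ⟨g, hg, hgK, hgo⟩ := h (fun _ => 1) continuousOn_const
    ⟨_, tp_zero_mem hn, one_ne_zero⟩
  have hsup : supNorm (K hn) (fun _ => 1) = 1 := by
    unfold supNorm
    rw [Set.Nonempty.image_const ⟨_, tp_zero_mem hn⟩]
    simp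
  rw [hsup] at hgo
  have hle : ∀ z ∈ closedBall (0 : Cn n) 1, ‖g z‖ ≤ 1 := by
    intro z hz
    by_cases hzK : z ∈ K hn
    · rw [hgK z hzK]; simp
    · exact (hgo z ⟨hz, hzK⟩).le
  have h0 : ‖g 0‖ < 1 := by
    apply hgo
    refine ⟨by simp, ?_⟩
    intro h0
    have := K_sphere hn h0
    simp at this
  obtain ⟨m, hm⟩ := exists_pow_lt_of_lt_one (show (0 : ℝ) < 1 / 2 by norm_num) h0
  have hG := pow_mem hg m
  set G : Cn n → ℂ := fun z => g z ^ m with hGdef
  have hG1 : ∀ z ∈ closedBall (0 : Cn n) 1, ‖G z‖ ≤ 1 := by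
    intro z hz
    rw [hGdef]
    simp only [norm_pow]
    exact pow_le_one₀ (norm_nonneg _) (hle z hz)
  have hGK : ∀ z ∈ K hn, G z = 1 := by
    intro z hz
    simp [hGdef, hgK z hz]
  -- a finite stage on which G is close to 1
  have hstage : ∃ J, ∀ z ∈ KJ hn J, ‖G z - 1‖ < 1 / 4 := by
    by_contra hcon
    push Not at hcon
    have hcl : ∀ J, IsClosed (KJ hn J ∩ {z | 1 / 4 ≤ ‖G z - 1‖}) := by
      intro J
      have h1 : ContinuousOn (fun z => ‖G z - 1‖) (KJ hn J) :=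
        ((hG.1.mono ((KJ_sphere hn J).trans sphere_subset_closedBall)).sub
          continuousOn_const).norm
      exact h1.preimage_isClosed_of_isClosed (isClosed_KJ hn J) isClosed_Ici
    obtain ⟨z, hz⟩ := IsCompact.nonempty_iInter_of_sequence_nonempty_isCompact_isClosed
      (fun J => KJ hn J ∩ {z | 1 / 4 ≤ ‖G z - 1‖})
      (fun J z hz => ⟨⟨hz.1.1, hz.1.2.1, hz.1.2.2.1, fun j hj => hz.1.2.2.2 j (by omega)⟩, hz.2⟩)
      (fun J => by
        obtain ⟨z, hz1, hz2⟩ := hcon J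
        exact ⟨z, hz1, hz2⟩)
      ((isCompact_KJ hn 0).of_isClosed_subset (hcl 0) inter_subset_left) hcl
    rw [mem_iInter] at hz
    have hzK : z ∈ K hn :=
      ⟨(hz 0).1.1, (hz 0).1.2.1, (hz 0).1.2.2.1, fun j => (hz (j + 1)).1.2.2.2 j (by omega)⟩
    have h2 := (hz 0).2
    simp only [mem_ofPred_eq, hGK z hzK, sub_self, norm_zero] at h2
    norm_num at h2
  obtain ⟨J, hJ⟩ := hstage
  have hfin := key_ineq hn hG J (by
    intro x
    have hnn : ∀ j, 0 ≤ 2 * ((1 - Real.cos (ph j x)) / η j) := fun j => by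
      have := Real.cos_le_one (ph j x)
      have h2 := η_pos j
      have h3 : 0 ≤ 1 - Real.cos (ph j x) := by linarith
      positivity
    by_cases hx : ∀ j < J, 1 - η j ≤ Real.cos (ph j x)
    · obtain ⟨h1, h2, h3⟩ := tp_base hn x
      have := hJ (tp n x) ⟨h1, h2, h3, fun j hj => by rw [U_tp]; exact hx j hj⟩
      have h4 : 0 ≤ ∑ j ∈ Finset.range J, 2 * ((1 - Real.cos (ph j x)) / η j) :=
        Finset.sum_nonneg fun j _ => hnn j
      linarith
    · push Not at hx
      obtain ⟨j, hj, hjx⟩ := hx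
      have h1 : 1 < (1 - Real.cos (ph j x)) / η j := by
        rw [one_lt_div (η_pos j)]; linarith
      have h2 : 2 * ((1 - Real.cos (ph j x)) / η j) ≤
          ∑ j ∈ Finset.range J, 2 * ((1 - Real.cos (ph j x)) / η j) :=
        Finset.single_le_sum (f := fun j => 2 * ((1 - Real.cos (ph j x)) / η j))
          (fun j _ => hnn j) (Finset.mem_range.2 hj)
      have h3 : ‖G (tp n x) - 1‖ ≤ 2 := by
        have h4 := norm_sub_le (G (tp n x)) 1
        have h5 := hG1 (tp n x) (by rw [mem_closedBall_zero_iff, norm_tp hn])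
        rw [norm_one] at h4
        linarith
      linarith)
  have h3 : 1 - ‖G 0‖ ≤ ‖G 0 - 1‖ := by
    have := norm_sub_norm_le (1 : ℂ) (G 0)
    rw [norm_one, norm_sub_rev] at this
    exact this
  have h4 : ‖G 0‖ < 1 / 2 := by
    rw [hGdef]
    simpa using hm
  linarith


lemma null_of_exp_tendsto {F : Set ℝ} (hF : MeasurableSet F) (hfin : volume F ≠ ⊤)
    (R : ℕ → ℕ) (hR : Tendsto R atTop atTop)
    (hlim : ∀ x ∈ F, Tendsto (fun k => Complex.exp (((R k : ℝ) * x : ℝ) * Complex.I)) atTop (𝓝 1)) :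
    volume F = 0 := by
  have hRL := Real.tendsto_integral_exp_smul_cocompact (F.indicator (fun _ => (1 : ℂ)))
  have hw : Tendsto (fun k : ℕ => -((R k : ℝ) / (2 * Real.pi))) atTop (cocompact ℝ) := by
    have h1 : Tendsto (fun k : ℕ => ((R k : ℝ) / (2 * Real.pi))) atTop atTop :=
      (tendsto_natCast_atTop_atTop.comp hR).atTop_div_const (by positivity)
    exact (tendsto_neg_atTop_atBot.comp h1).mono_right atBot_le_cocompact
  have h1 := hRL.comp hw
  have h2 : Tendsto (fun k : ℕ => ∫ v : ℝ, (F.indicator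
      (fun v => Complex.exp (((R k : ℝ) * v : ℝ) * Complex.I)) v)) atTop
      (𝓝 (∫ v : ℝ, F.indicator (fun _ => (1 : ℂ)) v)) := by
    apply tendsto_integral_of_dominated_convergence (F.indicator (fun _ => (1 : ℝ)))
    · intro k
      apply (Measurable.indicator ?_ hF).aestronglyMeasurable
      fun_prop
    · rw [integrable_indicator_iff hF]
      exact integrableOn_const hfin
    · intro k
      refine Eventually.of_forall fun v => ?_
      by_cases hv : v ∈ F
      · simp only [indicator_of_mem hv]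
        rw [Complex.norm_exp_ofReal_mul_I]
      · simp [indicator_of_notMem hv]
    · refine Eventually.of_forall fun v => ?_
      by_cases hv : v ∈ F
      · simp only [indicator_of_mem hv]
        exact hlim v hv
      · simp [indicator_of_notMem hv]
  have h3 : (fun k : ℕ => ∫ v : ℝ, (F.indicator
      (fun v => Complex.exp (((R k : ℝ) * v : ℝ) * Complex.I)) v)) =
      ((fun w : ℝ => ∫ v : ℝ, Real.fourierChar (-(v * w)) • F.indicator (fun _ => (1 : ℂ)) v) ∘
        fun k : ℕ => -((R k : ℝ) / (2 * Real.pi))) := by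
    ext k
    simp only [Function.comp]
    congr 1
    ext v
    by_cases hv : v ∈ F
    · simp only [indicator_of_mem hv]
      rw [Circle.smul_def, Real.fourierChar_apply]
      simp only [smul_eq_mul, mul_one]
      congr 2
      have : (Real.pi : ℝ) ≠ 0 := Real.pi_ne_zero
      norm_cast
      field_simp
    · simp [indicator_of_notMem hv]
  rw [h3] at h2
  have h4 := tendsto_nhds_unique h1 h2
  rw [integral_indicator hF, setIntegral_const] at h4
  simp only [Complex.real_smul, mul_one] at h4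
  have h5 : volume.real F = 0 := by exact_mod_cast h4.symm
  rwa [measureReal_eq_zero_iff hfin] at h5

lemma local_null {E : Set ℝ} (hE : MeasurableSet E) {t₀ : ℝ} (ht₀ : t₀ ∈ E) {ψ : ℝ → ℂ}
    (hψ : ContDiffAt ℝ 1 ψ t₀) (h0 : ψ t₀ ≠ 0) (hd : (deriv ψ t₀ / ψ t₀).im ≠ 0)
    {c : ℝ} (hc : 0 < c) (hnorm : ∀ t ∈ E, ‖ψ t‖ = c) (R : ℕ → ℕ) (hR : Tendsto R atTop atTop)
    (hlim : ∀ t ∈ E, Tendsto (fun k => (ψ t / c) ^ (R k)) atTop (𝓝 1)) :
    ∃ u ∈ 𝓝[E] t₀, volume u = 0 := by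
  set γ : ℝ → ℝ := fun t => (Complex.log (ψ t / ψ t₀)).im with hγ
  have hq : ContDiffAt ℝ 1 (fun t => ψ t / ψ t₀) t₀ := hψ.div_const _
  have hq1 : ψ t₀ / ψ t₀ = 1 := div_self h0
  have hslit : ψ t₀ / ψ t₀ ∈ Complex.slitPlane := by rw [hq1]; exact Complex.one_mem_slitPlane
  have hγc : ContDiffAt ℝ 1 γ t₀ := by
    have hlog : ContDiffAt ℝ 1 Complex.log ((fun t => ψ t / ψ t₀) t₀) :=
      (Complex.contDiffAt_log hslit).restrict_scalars ℝ
    have h1 : ContDiffAt ℝ 1 (Complex.log ∘ (fun t => ψ t / ψ t₀)) t₀ := hlog.comp t₀ hq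
    exact Complex.imCLM.contDiff.contDiffAt.comp t₀ h1
  have hγd : deriv γ t₀ = (deriv ψ t₀ / ψ t₀).im := by
    have h1 : HasDerivAt ψ (deriv ψ t₀) t₀ := (hψ.differentiableAt one_ne_zero).hasDerivAt
    have h2 := (h1.div_const (ψ t₀)).clog_real hslit
    rw [hq1, div_one] at h2
    have h3 := Complex.imCLM.hasFDerivAt.comp_hasDerivAt t₀ h2
    exact h3.deriv
  -- a neighbourhood with differentiability, nonvanishing derivative and injectivity
  have hev1 : ∀ᶠ t in 𝓝 t₀, ContDiffAt ℝ 1 γ t := hγc.eventually (by simp)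
  have hcont : ContinuousAt (deriv γ) t₀ := by
    have h1 := hγc.continuousAt_fderiv one_ne_zero
    have : deriv γ = fun t => fderiv ℝ γ t 1 := by ext t; simp
    rw [this]
    exact h1.clm_apply continuousAt_const
  have hinj : ∃ δ > 0, (∀ t ∈ Ioo (t₀ - δ) (t₀ + δ), ContDiffAt ℝ 1 γ t ∧ deriv γ t ≠ 0) ∧
      InjOn γ (Ioo (t₀ - δ) (t₀ + δ)) := by
    rw [← hγd] at hd
    rcases lt_or_gt_of_ne hd with hneg | hpos
    · have hev2 : ∀ᶠ t in 𝓝 t₀, deriv γ t < 0 := hcont.eventually_lt continuousAt_const hneg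
      obtain ⟨δ, hδ, h⟩ := Metric.eventually_nhds_iff_ball.1 (hev1.and hev2)
      rw [Real.ball_eq_Ioo] at h
      refine ⟨δ, hδ, fun t ht => ⟨(h t ht).1, (h t ht).2.ne⟩, ?_⟩
      apply StrictAntiOn.injOn
      apply strictAntiOn_of_deriv_neg (convex_Ioo _ _)
      · exact fun t ht => (h t ht).1.continuousAt.continuousWithinAt
      · rw [interior_Ioo]
        exact fun t ht => (h t ht).2
    · have hev2 : ∀ᶠ t in 𝓝 t₀, 0 < deriv γ t := continuousAt_const.eventually_lt hcont hpos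
      obtain ⟨δ, hδ, h⟩ := Metric.eventually_nhds_iff_ball.1 (hev1.and hev2)
      rw [Real.ball_eq_Ioo] at h
      refine ⟨δ, hδ, fun t ht => ⟨(h t ht).1, (h t ht).2.ne'⟩, ?_⟩
      apply StrictMonoOn.injOn
      apply strictMonoOn_of_deriv_pos (convex_Ioo _ _)
      · exact fun t ht => (h t ht).1.continuousAt.continuousWithinAt
      · rw [interior_Ioo]
        exact fun t ht => (h t ht).2
  obtain ⟨δ, hδ, hW, hWinj⟩ := hinj
  set S := E ∩ Ioo (t₀ - δ) (t₀ + δ) with hS
  have hSm : MeasurableSet S := hE.inter measurableSet_Ioo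
  have hSd : ∀ t ∈ S, HasDerivWithinAt γ (deriv γ t) S t := fun t ht =>
    (((hW t ht.2).1.differentiableAt one_ne_zero).hasDerivAt).hasDerivWithinAt
  have hSc : ContinuousOn γ S := fun t ht => (hW t ht.2).1.continuousAt.continuousWithinAt
  have hSi : InjOn γ S := hWinj.mono inter_subset_right
  have hFm : MeasurableSet (γ '' S) := hSm.image_of_continuousOn_injOn hSc hSi
  have hFfin : volume (γ '' S) ≠ ⊤ := by
    have : γ '' S ⊆ Icc (-Real.pi) Real.pi := by
      rintro _ ⟨t, _, rfl⟩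
      rw [hγ]
      simp only [Complex.log_im]
      exact ⟨(Complex.neg_pi_lt_arg _).le, Complex.arg_le_pi _⟩
    exact ne_top_of_le_ne_top (by simp) (measure_mono this)
  have hF0 : volume (γ '' S) = 0 := by
    apply null_of_exp_tendsto hFm hFfin R hR
    rintro _ ⟨t, ht, rfl⟩
    have hne : ψ t ≠ 0 := by
      intro h
      have := hnorm t ht.1
      rw [h, norm_zero] at this
      linarith
    have hq0 : ψ t / ψ t₀ ≠ 0 := div_ne_zero hne h0
    have hqn : ‖ψ t / ψ t₀‖ = 1 := by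
      rw [norm_div, hnorm t ht.1, hnorm t₀ ht₀, div_self hc.ne']
    have hexp : Complex.exp ((γ t : ℝ) * Complex.I) = ψ t / ψ t₀ := by
      have h1 := Complex.exp_log hq0
      have h2 : Complex.log (ψ t / ψ t₀) = (γ t : ℝ) * Complex.I := by
        apply Complex.ext
        · rw [Complex.log_re, hqn, Real.log_one]; simp
        · simp [hγ]
      rw [← h2, h1]
    have h3 : ∀ k, Complex.exp (((R k : ℝ) * γ t : ℝ) * Complex.I) =
        (ψ t / c) ^ (R k) / (ψ t₀ / c) ^ (R k) := by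
      intro k
      have hc' : (c : ℂ) ≠ 0 := by exact_mod_cast hc.ne'
      rw [← div_pow, div_div_div_cancel_right₀ hc', ← hexp, ← Complex.exp_nat_mul]
      congr 1
      push_cast
      ring
    simp_rw [h3]
    have h4 := (hlim t ht.1).div (hlim t₀ ht₀) one_ne_zero
    rwa [div_one] at h4
  refine ⟨S, ?_, ?_⟩
  · exact inter_mem_nhdsWithin E (Ioo_mem_nhds (by linarith) (by linarith))
  · have h1 := lintegral_image_eq_lintegral_abs_deriv_mul hSm hSd hSi (fun _ => 1)
    rw [setLIntegral_one, hF0] at h1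
    simp only [mul_one] at h1
    have hm : Measurable (fun x => ENNReal.ofReal |deriv γ x|) := by
      have := measurable_deriv γ
      fun_prop
    have h2 := (lintegral_eq_zero_iff hm).1 h1.symm
    have h3 : ∀ᵐ x ∂(volume.restrict S), False := by
      filter_upwards [h2, ae_restrict_mem hSm] with x hx hxS
      simp only [Pi.zero_apply, ENNReal.ofReal_eq_zero] at hx
      have h4 := (hW x hxS.2).2
      have h5 : 0 < |deriv γ x| := abs_pos.2 h4
      linarith
    rw [ae_iff] at h3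
    simpa using h3

lemma L_ge_self (j : ℕ) : j ≤ L j := by
  induction j with
  | zero => simp
  | succ j ih =>
    rw [L_succ]
    have h1 := N_pos j
    have h2 : 0 < R j := by unfold R; omega
    nlinarith

lemma R_tendsto (f : ℕ → ℕ) (hf : ∀ k, k ≤ f k) : Tendsto (fun k => R (f k)) atTop atTop := by
  apply tendsto_atTop_mono _ tendsto_id
  intro k
  have h1 := L_ge_self (f k)
  have h2 := hf k
  unfold R
  simp only [id]
  omega

lemma tendsto_one_of_re {ζ : ℕ → ℂ} {e : ℕ → ℝ} (h1 : ∀ k, ‖ζ k‖ = 1)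
    (h2 : ∀ k, 1 - e k ≤ (ζ k).re) (he : Tendsto e atTop (𝓝 0)) : Tendsto ζ atTop (𝓝 1) := by
  rw [tendsto_iff_norm_sub_tendsto_zero]
  have hsq : ∀ k, ‖ζ k - 1‖ ^ 2 ≤ 2 * e k := by
    intro k
    have h3 : ‖ζ k‖ ^ 2 = 1 := by rw [h1]; norm_num
    rw [← Complex.normSq_eq_norm_sq, Complex.normSq_apply] at h3
    rw [← Complex.normSq_eq_norm_sq, Complex.normSq_apply]
    simp only [Complex.sub_re, Complex.one_re, Complex.sub_im, Complex.one_im, sub_zero]
    have := h2 k
    nlinarith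
  have hsqrt : Tendsto (fun k => Real.sqrt (2 * e k)) atTop (𝓝 0) := by
    have : Tendsto (fun k => Real.sqrt (2 * e k)) atTop (𝓝 (Real.sqrt (2 * 0))) :=
      (he.const_mul 2).sqrt
    simpa using this
  apply squeeze_zero (fun k => norm_nonneg _) _ hsqrt
  intro k
  exact Real.le_sqrt_of_sq_le (hsq k)

lemma η_tendsto (f : ℕ → ℕ) (hf : ∀ k, k ≤ f k) : Tendsto (fun k => η (f k)) atTop (𝓝 0) := by
  have h1 : Tendsto f atTop atTop := tendsto_atTop_mono hf tendsto_id
  have h2 : Tendsto (fun k : ℕ => (1 / 2 : ℝ) ^ k) atTop (𝓝 0) :=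
    tendsto_pow_atTop_nhds_zero_of_lt_one (by norm_num) (by norm_num)
  exact h2.comp h1

/-- the normalised monomial tends to one along each class of frequencies -/
lemma lim_of_mem {n : ℕ} (hn : 2 ≤ n) {z : Cn n} (hz : z ∈ K hn) (a b : ℕ) (f : ℕ → ℕ)
    (hf : ∀ k, k ≤ f k) (h1 : ∀ k, s₁ (f k) = a) (h2 : ∀ k, s₂ (f k) = b) :
    Tendsto (fun k => ((z ⟨0, by omega⟩) ^ a * (starRingEnd ℂ (z ⟨1, by omega⟩)) ^ b /
      ((ρ ^ (a + b) : ℝ) : ℂ)) ^ (R (f k))) atTop (𝓝 1) := by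
  have hρ : (ρ : ℂ) ≠ 0 := by exact_mod_cast ρ_pos.ne'
  have he : ∀ k, ((z ⟨0, by omega⟩) ^ a * (starRingEnd ℂ (z ⟨1, by omega⟩)) ^ b /
      ((ρ ^ (a + b) : ℝ) : ℂ)) ^ (R (f k)) =
      (z ⟨0, by omega⟩ / ρ) ^ (R (f k) * s₁ (f k)) *
        (starRingEnd ℂ (z ⟨1, by omega⟩ / ρ)) ^ (R (f k) * s₂ (f k)) := by
    intro k
    rw [h1, h2, mul_comm (R (f k)) a, mul_comm (R (f k)) b, pow_mul, pow_mul, ← mul_pow]
    congr 1
    rw [map_div₀, Complex.conj_ofReal, div_pow, div_pow]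
    push_cast
    rw [pow_add]
    field_simp
  simp_rw [he]
  apply tendsto_one_of_re (e := fun k => η (f k))
  · intro k
    rw [norm_mul, norm_pow, norm_pow, norm_div, RCLike.norm_conj, norm_div, hz.2.1, hz.2.2.1,
      Complex.norm_real, Real.norm_of_nonneg ρ_pos.le, div_self ρ_pos.ne']
    simp
  · intro k
    exact hz.2.2.2 (f k)
  · exact η_tendsto f hf

lemma s₁_even (k : ℕ) : s₁ (2 * k) = 1 := by simp [s₁]
lemma s₂_even (k : ℕ) : s₂ (2 * k) = 2 := by simp [s₂]
lemma s₁_odd (k : ℕ) : s₁ (2 * k + 1) = 2 := by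
  unfold s₁; rw [if_neg (by rw [Nat.even_add_one]; simp)]
lemma s₂_odd (k : ℕ) : s₂ (2 * k + 1) = 1 := by
  unfold s₂; rw [if_neg (by rw [Nat.even_add_one]; simp)]

/-- Nagel's condition: every nowhere complex-tangential curve meets K in a null set. -/
theorem curve_null {n : ℕ} (hn : 2 ≤ n) {a b : ℝ} {φ : ℝ → Cn n}
    (hφ : ContDiffOn ℝ 1 φ (Icc a b)) (hS : ∀ t ∈ Icc a b, φ t ∈ sphere (0 : Cn n) 1)
    (htr : ∀ t ∈ Icc a b,
      ∑ i, derivWithin φ (Icc a b) t i * starRingEnd ℂ (φ t i) ≠ 0) :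
    volume {t ∈ Icc a b | φ t ∈ K hn} = 0 := by
  have hEclosed : IsClosed {t ∈ Icc a b | φ t ∈ K hn} :=
    hφ.continuousOn.preimage_isClosed_of_isClosed isClosed_Icc (isClosed_K hn)
  set E := {t ∈ Icc a b | φ t ∈ K hn} with hE
  have hsub : E ⊆ (E ∩ Ioo a b) ∪ {a, b} := by
    intro t ht
    have h1 := ht.1
    by_cases hta : t = a
    · right; simp [hta]
    · by_cases htb : t = b
      · right; simp [htb]
      · left
        exact ⟨ht, lt_of_le_of_ne h1.1 (Ne.symm hta), lt_of_le_of_ne h1.2 htb⟩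
  have hpair : volume ({a, b} : Set ℝ) = 0 := by
    apply Set.Finite.measure_zero
    simp
  apply measure_mono_null hsub
  apply measure_union_null _ hpair
  have hE'm : MeasurableSet (E ∩ Ioo a b) := hEclosed.measurableSet.inter measurableSet_Ioo
  apply measure_null_of_locally_null
  intro t₀ ht₀
  have hnhds : Icc a b ∈ 𝓝 t₀ := Icc_mem_nhds ht₀.2.1 ht₀.2.2
  have hφa : ContDiffAt ℝ 1 φ t₀ := hφ.contDiffAt hnhds
  have hφd : HasDerivAt φ (deriv φ t₀) t₀ := (hφa.differentiableAt one_ne_zero).hasDerivAt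
  have htr0 := htr t₀ ht₀.1.1
  rw [derivWithin_of_mem_nhds hnhds] at htr0
  have hcoord : ∀ i : Fin n, ContDiffAt ℝ 1 (fun t => φ t i) t₀ := by
    intro i
    exact ((EuclideanSpace.proj i : Cn n →L[ℂ] ℂ).restrictScalars ℝ).contDiff.contDiffAt.comp t₀ hφa
  have hcd : ∀ i : Fin n, HasDerivAt (fun t => φ t i) (deriv φ t₀ i) t₀ := by
    intro i
    exact ((EuclideanSpace.proj i : Cn n →L[ℂ] ℂ).restrictScalars ℝ).hasFDerivAt.comp_hasDerivAt
      t₀ hφd
  set i0 : Fin n := ⟨0, by omega⟩ with hi0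
  set i1 : Fin n := ⟨1, by omega⟩ with hi1
  set z0 := φ t₀ i0 with hz0
  set z1 := φ t₀ i1 with hz1
  set v0 := deriv φ t₀ i0 with hv0
  set v1 := deriv φ t₀ i1 with hv1
  have hK0 := ht₀.1.2
  have hnz0 : ‖z0‖ = ρ := hK0.2.1
  have hnz1 : ‖z1‖ = ρ := hK0.2.2.1
  have hne0 : z0 ≠ 0 := by rw [← norm_pos_iff, hnz0]; exact ρ_pos
  have hne1 : z1 ≠ 0 := by rw [← norm_pos_iff, hnz1]; exact ρ_pos
  have hsum : ∑ i, deriv φ t₀ i * starRingEnd ℂ (φ t₀ i) =
      v0 * starRingEnd ℂ z0 + v1 * starRingEnd ℂ z1 := by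
    rw [← Finset.sum_subset (Finset.subset_univ {i0, i1})]
    · rw [Finset.sum_pair (by simp [hi0, hi1, Fin.ext_iff])]
    · intro i _ hi
      simp only [Finset.mem_insert, Finset.mem_singleton, not_or] at hi
      rw [hK0.1 i (by
        have h1 : i.val ≠ 0 := fun h => hi.1 (Fin.ext h)
        have h2 : i.val ≠ 1 := fun h => hi.2 (Fin.ext h)
        omega), map_zero, mul_zero]
  rw [hsum] at htr0
  -- the real part of the sum vanishes, since the curve stays in the sphere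
  have hre : (∑ i, deriv φ t₀ i * starRingEnd ℂ (φ t₀ i)).re = 0 := by
    have h1 : HasDerivAt (fun t => ∑ i, ‖φ t i‖ ^ 2)
        (∑ i, 2 * (deriv φ t₀ i * starRingEnd ℂ (φ t₀ i)).re) t₀ := by
      apply HasDerivAt.fun_sum
      intro i _
      have h2 : HasDerivAt (fun t => (φ t i * starRingEnd ℂ (φ t i)).re)
          ((deriv φ t₀ i * starRingEnd ℂ (φ t₀ i) +
            φ t₀ i * starRingEnd ℂ (deriv φ t₀ i)).re) t₀ := by
        have h3 : HasDerivAt (fun t => starRingEnd ℂ (φ t i)) (starRingEnd ℂ (deriv φ t₀ i)) t₀ :=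
          (Complex.conjCLE.hasFDerivAt.comp_hasDerivAt t₀ (hcd i))
        exact Complex.reCLM.hasFDerivAt.comp_hasDerivAt t₀ ((hcd i).mul h3)
      have h6 : (fun t => ‖φ t i‖ ^ 2) = fun t => (φ t i * starRingEnd ℂ (φ t i)).re := by
        ext t
        rw [Complex.mul_conj, Complex.ofReal_re, Complex.normSq_eq_norm_sq]
      rw [h6]
      refine h2.congr_deriv ?_
      simp only [Complex.add_re, Complex.mul_re, Complex.conj_re, Complex.conj_im]
      ring
    have h4 : (fun t => ∑ i, ‖φ t i‖ ^ 2) =ᶠ[𝓝 t₀] fun _ => 1 := by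
      filter_upwards [hnhds] with t ht
      have := hS t ht
      rw [mem_sphere_zero_iff_norm] at this
      rw [← EuclideanSpace.norm_sq_eq, this]
      norm_num
    have h5 := (h1.congr_of_eventuallyEq h4.symm).unique (hasDerivAt_const t₀ (1 : ℝ))
    rw [← Finset.mul_sum] at h5
    rw [Complex.re_sum]
    linarith
  rw [hsum] at hre
  -- logarithmic derivatives
  have hv0' : v0 * starRingEnd ℂ z0 = (v0 / z0) * ((1 / 2 : ℝ) : ℂ) := by
    have h1 : z0 * starRingEnd ℂ z0 = ((1 / 2 : ℝ) : ℂ) := by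
      rw [Complex.mul_conj, Complex.normSq_eq_norm_sq, hnz0, ρ_sq]
    rw [← h1]
    field_simp
  have hv1' : v1 * starRingEnd ℂ z1 = (v1 / z1) * ((1 / 2 : ℝ) : ℂ) := by
    have h1 : z1 * starRingEnd ℂ z1 = ((1 / 2 : ℝ) : ℂ) := by
      rw [Complex.mul_conj, Complex.normSq_eq_norm_sq, hnz1, ρ_sq]
    rw [← h1]
    field_simp
  rw [hv0', hv1'] at htr0 hre
  have him : ¬ ((v0 / z0).im = 0 ∧ (v1 / z1).im = 0) := by
    rintro ⟨h1, h2⟩
    apply htr0
    apply Complex.ext
    · exact hre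
    · rw [Complex.add_im, Complex.im_mul_ofReal, Complex.im_mul_ofReal, h1, h2]
      simp
  -- the two monomials
  have hmono : ∀ p q : ℕ, HasDerivAt (fun t => (φ t i0) ^ p * (starRingEnd ℂ (φ t i1)) ^ q)
      ((z0 ^ p * (starRingEnd ℂ z1) ^ q) * (p * (v0 / z0) + q * starRingEnd ℂ (v1 / z1))) t₀ := by
    intro p q
    have h3 : HasDerivAt (fun t => starRingEnd ℂ (φ t i1)) (starRingEnd ℂ v1) t₀ :=
      (Complex.conjCLE.hasFDerivAt.comp_hasDerivAt t₀ (hcd i1))
    have h4 := ((hcd i0).fun_pow p).mul (h3.fun_pow q)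
    refine h4.congr_deriv ?_
    have hc1 : starRingEnd ℂ z1 ≠ 0 := by simpa using hne1
    rw [map_div₀]
    rcases p with _ | p
    · rcases q with _ | q
      · simp
      · simp only [Nat.add_sub_cancel]
        push_cast
        field_simp
        ring
    · rcases q with _ | q
      · simp only [Nat.add_sub_cancel]
        push_cast
        field_simp
        ring
      · simp only [Nat.add_sub_cancel]
        push_cast
        field_simp
        ring
  have hmc : ∀ p q : ℕ, ContDiffAt ℝ 1 (fun t => (φ t i0) ^ p * (starRingEnd ℂ (φ t i1)) ^ q) t₀ := by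
    intro p q
    have h3 : ContDiffAt ℝ 1 (fun t => starRingEnd ℂ (φ t i1)) t₀ :=
      Complex.conjCLE.contDiff.contDiffAt.comp t₀ (hcoord i1)
    exact ((hcoord i0).pow p).mul (h3.pow q)
  have hmne : ∀ p q : ℕ, z0 ^ p * (starRingEnd ℂ z1) ^ q ≠ 0 := by
    intro p q
    apply mul_ne_zero (pow_ne_zero _ hne0)
    apply pow_ne_zero
    simpa using hne1
  have hmn : ∀ p q : ℕ, ∀ t ∈ E ∩ Ioo a b,
      ‖(φ t i0) ^ p * (starRingEnd ℂ (φ t i1)) ^ q‖ = ρ ^ (p + q) := by
    intro p q t ht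
    rw [norm_mul, norm_pow, norm_pow, RCLike.norm_conj, ht.1.2.2.1, ht.1.2.2.2.1, pow_add]
  have hld : ∀ p q : ℕ, (deriv (fun t => (φ t i0) ^ p * (starRingEnd ℂ (φ t i1)) ^ q) t₀ /
      ((φ t₀ i0) ^ p * (starRingEnd ℂ (φ t₀ i1)) ^ q)).im =
      p * (v0 / z0).im - q * (v1 / z1).im := by
    intro p q
    rw [(hmono p q).deriv, mul_div_cancel_left₀ _ (hmne p q)]
    simp only [Complex.add_im, Complex.mul_im, Complex.conj_im, Complex.natCast_re,
      Complex.natCast_im, zero_mul, add_zero]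
    ring
  by_cases hcase : (v0 / z0).im - 2 * (v1 / z1).im = 0
  · -- use the odd frequencies
    refine local_null hE'm ht₀ (hmc 2 1) (hmne 2 1) ?_ (pow_pos ρ_pos 3) (hmn 2 1)
      (fun k => R (2 * k + 1)) (R_tendsto _ fun k => by omega) ?_
    · rw [hld]
      intro h
      push_cast at h
      apply him
      constructor <;> linarith
    · intro t ht
      exact lim_of_mem hn ht.1.2 2 1 (fun k => 2 * k + 1) (fun k => by omega) s₁_odd s₂_odd
  · refine local_null hE'm ht₀ (hmc 1 2) (hmne 1 2) ?_ (pow_pos ρ_pos 3) (hmn 1 2)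
      (fun k => R (2 * k)) (R_tendsto _ fun k => by omega) ?_
    · rw [hld]
      push_cast
      simpa using hcase
    · intro t ht
      exact lim_of_mem hn ht.1.2 1 2 (fun k => 2 * k) (fun k => by omega) s₁_even s₂_even

/-- The converse of Nagel's theorem fails in every dimension n ≥ 2. -/
theorem result : ∀ n : ℕ, 2 ≤ n → ∃ K : Set (Cn n), IsCompact K ∧ K ⊆ sphere (0 : Cn n) 1 ∧
    (∀ (a b : ℝ) (φ : ℝ → Cn n), ContDiffOn ℝ 1 φ (Icc a b) →
      (∀ t ∈ Icc a b, φ t ∈ sphere (0 : Cn n) 1) →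
      (∀ t ∈ Icc a b, ∑ i, derivWithin φ (Icc a b) t i * starRingEnd ℂ (φ t i) ≠ 0) →
      volume {t ∈ Icc a b | φ t ∈ K} = 0) ∧
    ¬ IsPISet K := by
  intro n hn
  exact ⟨K hn, isCompact_K hn, K_sphere hn, fun a b φ h1 h2 h3 => curve_null hn h1 h2 h3,
    not_PI hn⟩

end Pool.Agent.Results.MP_36132b_an.NagelConverse
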